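import Pool.Agent.MP_9210c2_an.Ball

/-!
Scale separation measured in steps of ratio `1 + 1/n`: about `log (2^n Δ)` steps are enough.
-/

namespace Pool.Agent.MP_9210c2_an

open MeasureTheory Set Filter Topology
open scoped ENNReal Pointwise

variable {n : ℕ} {K : Set (V n)}

/-- one class of scales of ratio `1 + 1/n` -/
lemma Good.h51_sel (h : Good K) (hn : 0 < n) (d : ℝ) (hd : 0 < d)
    (hdK : ENNReal.ofReal d ≤ packDensity K) (s : ℝ) (hs0 : 0 < s) (δ : V n → ℝ) (B : Set (V n))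
    (hB : Bornology.IsBounded B)
    (hj : ∀ x ∈ B, s / (1 + (n : ℝ)⁻¹) < δ x ∧ δ x ≤ s) :
    Sel K δ (ENNReal.ofReal (18 / d)) B := by
  have hd0 : ENNReal.ofReal d ≠ 0 := (ENNReal.ofReal_pos.2 hd).ne'
  have hΔ : packDensity K ≠ 0 := fun h0 => hd0 (le_antisymm (h0 ▸ hdK) bot_le)
  set q : ℝ := 1 + (n : ℝ)⁻¹ with hq
  have hn' : (0 : ℝ) < (n : ℝ)⁻¹ := by positivity
  have hq1 : 1 < q := by linarith
  have hq0 : 0 < q := by linarith
  obtain ⟨P, hP, hdis, hv⟩ := h.single_scale hΔ (closure B) isClosed_closure.measurableSet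
    hB.closure (s * q) (by positivity)
  obtain ⟨P', hP', hd', hv'⟩ := h.perturb P id (fun _ => s * q) δ B (q ^ 2) (by positivity)
    (fun _ _ => by positivity) hdis (by
      intro c hc
      refine ⟨s * (q - 1), mul_pos hs0 (by linarith), closure_mono ?_ (hP hc)⟩
      intro x hx
      obtain ⟨h1, h2⟩ := hj x hx
      refine ⟨hx, ?_, by linarith⟩
      rw [div_lt_iff₀ hq0] at h1
      nlinarith)
  refine ⟨P', hP', hd', ?_⟩
  have h9 : ENNReal.ofReal ((q ^ 2) ^ n) ≤ 9 := by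
    have : (q ^ 2) ^ n ≤ 9 := by
      rw [← pow_mul, mul_comm, pow_mul]
      have := pow_self_le_three n
      have h0 : 0 ≤ q ^ n := by positivity
      nlinarith
    exact (ENNReal.ofReal_le_ofReal this).trans (by simp)
  have h10 : ENNReal.ofReal d * volume B ≤ 18 * tot K δ P' := by
    calc ENNReal.ofReal d * volume B ≤ packDensity K * volume (closure B) := by
          gcongr; exact subset_closure
      _ ≤ 2 * (9 * tot K δ P') := hv.trans (by gcongr; exact hv'.trans (by gcongr))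
      _ = _ := by ring
  have e : ENNReal.ofReal (18 / d) = 18 / ENNReal.ofReal d := by
    rw [ENNReal.ofReal_div_of_pos hd]; simp
  rw [e, div_eq_mul_inv, mul_right_comm, ← div_eq_mul_inv,
    ENNReal.le_div_iff_mul_le (Or.inl hd0) (Or.inl ENNReal.ofReal_ne_top), mul_comm]
  exact h10

/-- the lower bound with a free number `D` of skipped classes -/
lemma Good.h51_base (h : Good K) (hn : 0 < n) (D : ℕ) (d b W : ℝ) (hd : 0 < d)
    (hdK : ENNReal.ofReal d ≤ packDensity K)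
    (hb : d * (1 + ((1 + (n : ℝ)⁻¹) ^ D)⁻¹) ^ n ≤ b)
    (hW : 2 * ((D : ℝ) + 1) * (18 + b) ≤ W) :
    ENNReal.ofReal (d / W) ≤ covConst K := by
  set q : ℝ := 1 + (n : ℝ)⁻¹ with hq
  have hn' : (0 : ℝ) < (n : ℝ)⁻¹ := by positivity
  have hq1 : 1 < q := by linarith
  have hq0 : 0 < q := by linarith
  set L := D + 1 with hL
  have hL0 : 0 < L := Nat.succ_pos _
  have key := h.engine q hq1 L hL0 D (fun j => j % L) (fun j => j / L)
    (fun j => Nat.mod_lt _ hL0)
    (by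
      intro j j' h1 h2
      have e1 := Nat.div_add_mod j L
      have e2 := Nat.div_add_mod j' L
      have : L * (j / L + 1) ≤ L * (j' / L) := Nat.mul_le_mul_left _ h2
      have e3 : L * (j / L + 1) = L * (j / L) + L := by ring
      omega)
    (ENNReal.ofReal (18 / d))
    (by
      intro M hM r g δ B hB hj
      refine h.h51_sel hn d hd hdK (M / q ^ (L * g + r)) (by positivity) δ B hB ?_
      intro x hx
      obtain ⟨j, h1, h2, h3⟩ := hj x hx
      have e1 := Nat.div_add_mod j L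
      rw [h1, h2] at e1
      rw [e1, div_div, ← pow_succ]
      exact h3)
  set u : ℝ := (1 + (q ^ D)⁻¹) ^ n with hu
  have hu0 : 0 < u := by positivity
  have e : 2 * (L : ℝ≥0∞) * (ENNReal.ofReal (18 / d) + ENNReal.ofReal u) =
      ENNReal.ofReal (2 * ((D : ℝ) + 1) * (18 / d + u)) := by
    rw [← ENNReal.ofReal_add (by positivity) hu0.le, ENNReal.ofReal_mul (by positivity),
      ENNReal.ofReal_mul (by positivity)]
    have : ENNReal.ofReal ((D : ℝ) + 1) = (L : ℝ≥0∞) := by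
      rw [hL, ← ENNReal.ofReal_natCast]; push_cast; rfl
    rw [this]; simp
  rw [e] at key
  have h1 := inv_le_covConst _ ENNReal.ofReal_ne_top key
  refine le_trans ?_ h1
  rw [← ENNReal.ofReal_inv_of_pos (by positivity)]
  apply ENNReal.ofReal_le_ofReal
  have hb0 : 0 < b := lt_of_lt_of_le (by positivity) hb
  have hW0 : 0 < W := lt_of_lt_of_le (by positivity) hW
  rw [div_le_iff₀ hW0, inv_mul_eq_div, le_div_iff₀ (by positivity)]
  have e2 : d * (2 * ((D : ℝ) + 1) * (18 / d + u)) = 2 * ((D : ℝ) + 1) * (18 + d * u) := by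
    field_simp
  rw [e2]
  refine le_trans ?_ hW
  gcongr

lemma h51_pow_le (hn : 0 < n) (D : ℕ) (hD : D ≤ n) :
    (1 + ((1 + (n : ℝ)⁻¹) ^ D)⁻¹) ^ n ≤ 2 ^ n * Real.exp (-(D : ℝ) / 4) := by
  have hn1 : (0 : ℝ) < n := by exact_mod_cast hn
  have hD' : (D : ℝ) ≤ n := by exact_mod_cast hD
  have hD0 : (0 : ℝ) ≤ D := by positivity
  set y : ℝ := D * (n : ℝ)⁻¹ with hy
  have hy0 : 0 ≤ y := by positivity
  have hy1 : y ≤ 1 := by rw [hy, ← div_eq_mul_inv, div_le_one hn1]; exact hD'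
  have h1 : 1 + y ≤ (1 + (n : ℝ)⁻¹) ^ D :=
    one_add_mul_le_pow (by
      have : (0 : ℝ) ≤ (n : ℝ)⁻¹ := by positivity
      linarith) D
  have h2 : ((1 + (n : ℝ)⁻¹) ^ D)⁻¹ ≤ 1 - y / 2 := by
    refine le_trans (inv_anti₀ (by positivity) h1) ?_
    rw [inv_le_iff_one_le_mul₀ (by positivity)]
    nlinarith
  have h3 : 1 + ((1 + (n : ℝ)⁻¹) ^ D)⁻¹ ≤ 2 * Real.exp (-y / 4) := by
    have := Real.add_one_le_exp (-y / 4)
    linarith
  calc _ ≤ (2 * Real.exp (-y / 4)) ^ n := by gcongr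
    _ = _ := by
      rw [mul_pow, ← Real.exp_nat_mul]
      congr 2
      rw [hy]; field_simp

lemma h51_log_ge {t : ℝ} (ht : 0 ≤ t) : (0.69 : ℝ) ≤ Real.log (2 + t) := by
  have hl2 : (0.69 : ℝ) < Real.log 2 := by have := Real.log_two_gt_d9; linarith
  have := Real.log_le_log (by norm_num : (0 : ℝ) < 2) (by linarith : (2 : ℝ) ≤ 2 + t)
  linarith

/-- the regime of small density -/
lemma Good.h51_small (h : Good K) (hn : 0 < n) (d W : ℝ) (hd : 0 < d)
    (hdK : ENNReal.ofReal d ≤ packDensity K)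
    (hs : 4 * Real.log (2 + 2 ^ n * d) ≤ n) (hW : 263 * Real.log (2 + 2 ^ n * d) ≤ W) :
    ENNReal.ofReal (d / W) ≤ covConst K := by
  set l := Real.log (2 + 2 ^ n * d) with hl
  have hl0 : (0.69 : ℝ) ≤ l := h51_log_ge (by positivity)
  have hD1 : 4 * l ≤ (⌈4 * l⌉₊ : ℝ) := Nat.le_ceil _
  have hD2 : (⌈4 * l⌉₊ : ℝ) < 4 * l + 1 := Nat.ceil_lt_add_one (by linarith)
  have hD3 : ⌈4 * l⌉₊ ≤ n := Nat.ceil_le.2 hs
  refine h.h51_base hn ⌈4 * l⌉₊ d 1 W hd hdK ?_ (by nlinarith)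
  have h1 := h51_pow_le hn _ hD3
  have h2 : Real.exp (-(⌈4 * l⌉₊ : ℝ) / 4) ≤ (2 + 2 ^ n * d)⁻¹ := by
    have : Real.exp (-l) = (2 + 2 ^ n * d)⁻¹ := by
      rw [Real.exp_neg, hl, Real.exp_log (by positivity)]
    rw [← this]
    exact Real.exp_le_exp.2 (by linarith)
  calc _ ≤ d * (2 ^ n * (2 + 2 ^ n * d)⁻¹) := by
        gcongr
        exact h1.trans (by gcongr)
    _ = (2 ^ n * d) / (2 + 2 ^ n * d) := by rw [div_eq_mul_inv]; ring
    _ ≤ 1 := by
        rw [div_le_one (by positivity)]; linarith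

lemma Good.h51_general (h : Good K) (hn : 0 < n) (d : ℝ) (hd : 0 < d)
    (hdK : ENNReal.ofReal d ≤ packDensity K) :
    ENNReal.ofReal (d / (600 * Real.log (2 + 2 ^ n * d) *
      Real.log (3 + n / (1 + Real.log d⁻¹)))) ≤ covConst K := by
  have hn1 : (1 : ℝ) ≤ n := by exact_mod_cast hn
  have hd1 : d ≤ 1 := ENNReal.ofReal_le_one.1 (hdK.trans h.packDensity_le_one)
  set l := Real.log (2 + 2 ^ n * d) with hl
  have hl0 : (0.69 : ℝ) ≤ l := h51_log_ge (by positivity)
  set a := Real.log d⁻¹ with ha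
  have ha0 : 0 ≤ a := Real.log_nonneg (one_le_inv_iff₀.2 ⟨hd, hd1⟩)
  set x : ℝ := n / (1 + a) with hx
  have hx0 : 0 ≤ x := by positivity
  set G := Real.log (3 + x) with hG
  have hG1 : 1 ≤ G := by
    rw [hG, Real.le_log_iff_exp_le (by positivity)]
    have := Real.exp_one_lt_d9
    linarith
  by_cases hs : 4 * l ≤ n
  · exact h.h51_small hn d _ hd hdK hs (by nlinarith)
  push Not at hs
  have hl2 : (0.69 : ℝ) < Real.log 2 := by have := Real.log_two_gt_d9; linarith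
  set k := ⌈G / Real.log 2⌉₊ with hk
  have hk1 : G / Real.log 2 ≤ (k : ℝ) := Nat.le_ceil _
  have hk2 : (k : ℝ) < G / Real.log 2 + 1 := Nat.ceil_lt_add_one (by positivity)
  have hk3 : G / Real.log 2 ≤ 1.45 * G := by
    rw [div_le_iff₀ (by linarith)]; nlinarith
  have hk4 : 3 + x ≤ 2 ^ k := by
    rw [div_le_iff₀ (by linarith)] at hk1
    have : Real.log (3 + x) ≤ Real.log (2 ^ k) := by rw [Real.log_pow]; exact hk1
    exact (Real.log_le_log_iff (by positivity) (by positivity)).1 this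
  refine h.h51_base hn (n * k) d 3 _ hd hdK ?_ ?_
  · have h1 : (2 : ℝ) ^ k ≤ (1 + (n : ℝ)⁻¹) ^ (n * k) := by
      rw [pow_mul]
      exact pow_le_pow_left₀ (by norm_num) (two_le_pow_self hn) k
    have h2 : ((1 + (n : ℝ)⁻¹) ^ (n * k))⁻¹ ≤ (1 + a) / n := by
      have h3 : x ≤ (1 + (n : ℝ)⁻¹) ^ (n * k) := by linarith
      have h4 : 0 < x := by positivity
      refine (inv_anti₀ h4 h3).trans (le_of_eq ?_)
      rw [hx, inv_div]
    have h5 : 1 + ((1 + (n : ℝ)⁻¹) ^ (n * k))⁻¹ ≤ Real.exp ((1 + a) / n) := by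
      have := Real.add_one_le_exp ((1 + a) / n)
      linarith
    have h6 : Real.exp ((1 + a) / n) ^ n = Real.exp 1 * d⁻¹ := by
      rw [← Real.exp_nat_mul, mul_div_cancel₀ _ (by positivity), Real.exp_add, ha,
        Real.exp_log (by positivity)]
    calc _ ≤ d * Real.exp ((1 + a) / n) ^ n := by gcongr
      _ = Real.exp 1 := by rw [h6]; field_simp
      _ ≤ 3 := by have := Real.exp_one_lt_d9; linarith
  · push_cast
    have h7 : (n : ℝ) * k + 1 ≤ n * (3.45 * G) := by nlinarith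
    have h8 : (n : ℝ) * (3.45 * G) ≤ 4 * l * (3.45 * G) := by gcongr
    nlinarith

lemma h51_ball (hn : 0 < n) (d : ℝ) (hd : 0 < d)
    (hdK : ENNReal.ofReal d ≤ packDensity (Metric.ball (0 : V n) 1)) :
    ENNReal.ofReal (d / (704 * Real.log (2 + 2 ^ n * d))) ≤
      covConst (Metric.ball (0 : V n) 1) := by
  have hn1 : (1 : ℝ) ≤ n := by exact_mod_cast hn
  set l := Real.log (2 + 2 ^ n * d) with hl
  have hl0 : (0.69 : ℝ) ≤ l := h51_log_ge (by positivity)
  by_cases hs : 4 * l ≤ n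
  · exact (good_ball n).h51_small hn d _ hd hdK hs (by nlinarith)
  push Not at hs
  have h1 := hdK.trans (ball_lower hn)
  have h2 : (176 * n : ℝ≥0∞) ≤ ENNReal.ofReal (704 * l) := by
    have : (176 * n : ℝ≥0∞) = ENNReal.ofReal (176 * n) := by
      rw [ENNReal.ofReal_mul (by norm_num), ENNReal.ofReal_natCast]; simp
    rw [this]
    exact ENNReal.ofReal_le_ofReal (by linarith)
  rw [ENNReal.ofReal_div_of_pos (by positivity)]
  refine ENNReal.div_le_of_le_mul' (h1.trans ?_)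
  gcongr

lemma h51_of_le_mul {d W : ℝ} {x c : ℝ≥0∞} (hW : 0 < W) (h1 : ENNReal.ofReal d ≤ x)
    (h2 : x ≤ ENNReal.ofReal W * c) : ENNReal.ofReal (d / W) ≤ c := by
  rw [ENNReal.ofReal_div_of_pos hW]
  exact ENNReal.div_le_of_le_mul' (h1.trans h2)

lemma Good.h51_general_min (h : Good K) (hn : 0 < n) (d : ℝ) (hd : 0 < d)
    (hdK : ENNReal.ofReal d ≤ packDensity K) :
    ENNReal.ofReal (d / min (210 * (n : ℝ) * Real.log (n + 1)) (600 * Real.log (2 + 2 ^ n * d) *
      Real.log (3 + n / (1 + Real.log d⁻¹)))) ≤ covConst K := by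
  have hn1 : (1 : ℝ) ≤ n := by exact_mod_cast hn
  rcases min_choice (210 * n * Real.log (n + 1)) (600 * Real.log (2 + 2 ^ n * d) *
      Real.log (3 + n / (1 + Real.log d⁻¹))) with e | e
  · rw [e]
    have : 0 < Real.log (n + 1) := Real.log_pos (by linarith)
    exact h51_of_le_mul (by positivity) hdK (h.general_lower hn)
  · rw [e]
    exact h.h51_general hn d hd hdK

lemma h51_ball_min (hn : 0 < n) (d : ℝ) (hd : 0 < d)
    (hdK : ENNReal.ofReal d ≤ packDensity (Metric.ball (0 : V n) 1)) :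
    ENNReal.ofReal (d / min (176 * (n : ℝ)) (704 * Real.log (2 + 2 ^ n * d))) ≤
      covConst (Metric.ball (0 : V n) 1) := by
  have hn1 : (1 : ℝ) ≤ n := by exact_mod_cast hn
  rcases min_choice (176 * n : ℝ) (704 * Real.log (2 + 2 ^ n * d)) with e | e
  · rw [e]
    refine h51_of_le_mul (by positivity) hdK ((ball_lower hn).trans (le_of_eq ?_))
    rw [ENNReal.ofReal_mul (by norm_num), ENNReal.ofReal_natCast]; simp
  · rw [e]
    exact h51_ball hn d hd hdK

end Pool.Agent.MP_9210c2_an
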